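import Pool.Agent.helper67.RG.Spec

set_option autoImplicit false
set_option linter.dupNamespace false

namespace Pool.Agent.RG.MUL

open Matrix Kronecker Pool.Agent.RG

universe u v

theorem MUL (hK : KRN_stmt.{u}) : MUL_stmt.{u, v} := by
  intro F Γ _ _ d W ρ Φ hW hd
  obtain ⟨b, T, T', h1, h2, h3, h4⟩ := hK Φ
  have hWW : ∀ g, W g⁻¹ * W g = 1 := by
    intro g
    rw [← map_mul, inv_mul_cancel, map_one]
  have hρρ : ∀ g, ρ g⁻¹ * ρ g = 1 := by
    intro g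
    rw [← map_mul, inv_mul_cancel, map_one]
  have hρρ' : ∀ g, ρ g * ρ g⁻¹ = 1 := by
    intro g
    rw [← map_mul, mul_inv_cancel, map_one]
  have hsw : ∀ g Z, W g * Φ Z = Φ (ρ g * Z * ρ g⁻¹) * W g := by
    intro g Z
    rw [← hW g Z, mul_assoc, hWW, mul_one]
  have hcomm : ∀ g Z, W g * Φ (ρ g⁻¹) * Φ Z = Φ Z * (W g * Φ (ρ g⁻¹)) := by
    intro g Z
    have e1 : Φ Z * W g = W g * Φ (ρ g⁻¹ * Z * ρ g) := by
      rw [hsw]
      congr 2
      rw [← mul_assoc, ← mul_assoc, hρρ', one_mul, mul_assoc, hρρ', mul_one]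
    rw [← mul_assoc (Φ Z), e1, mul_assoc, mul_assoc, ← map_mul, ← map_mul, mul_assoc, hρρ', mul_one]
  have hmul : ∀ g h, W (g * h) * Φ (ρ (g * h)⁻¹) = W g * Φ (ρ g⁻¹) * (W h * Φ (ρ h⁻¹)) := by
    intro g h
    have e2 : W (g * h) * Φ (ρ (g * h)⁻¹) = W g * (W h * Φ (ρ h⁻¹) * Φ (ρ g⁻¹)) := by
      rw [_root_.mul_inv_rev, map_mul W, map_mul ρ, map_mul Φ, mul_assoc, mul_assoc (W h)]
    rw [e2, hcomm h (ρ g⁻¹), ← mul_assoc (W g)]
  have hinj : ∀ B B' : Matrix (Fin b) (Fin b) F,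
      T * ((1 : Matrix (Fin 2) (Fin 2) F) ⊗ₖ B) = T * ((1 : Matrix (Fin 2) (Fin 2) F) ⊗ₖ B') →
      B = B' := by
    intro B B' h
    have e : (1 : Matrix (Fin 2) (Fin 2) F) ⊗ₖ B = (1 : Matrix (Fin 2) (Fin 2) F) ⊗ₖ B' := by
      have := congrArg (fun X => T' * X) h
      beta_reduce at this
      rw [← Matrix.mul_assoc, ← Matrix.mul_assoc, h2, Matrix.one_mul, Matrix.one_mul] at this
      exact this
    ext i j
    have := congrFun (congrFun e (0, i)) (0, j)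
    simpa using this
  choose M hM using fun g => h4 (W g * Φ (ρ g⁻¹)) (fun Z => hcomm g Z)
  have hM1 : M 1 = 1 := by
    refine hinj _ _ ?_
    rw [← hM 1, inv_one, map_one, map_one, map_one, one_mul, Matrix.one_mul,
      Matrix.one_kronecker_one, Matrix.mul_one]
  have hMm : ∀ g h, M (g * h) = M g * M h := by
    intro g h
    refine hinj _ _ ?_
    have e : (1 : Matrix (Fin 2) (Fin 2) F) ⊗ₖ (M g * M h) =
        ((1 : Matrix (Fin 2) (Fin 2) F) ⊗ₖ M g) * ((1 : Matrix (Fin 2) (Fin 2) F) ⊗ₖ M h) := by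
      rw [← Matrix.mul_kronecker_mul, Matrix.one_mul]
    rw [← hM (g * h), hmul, Matrix.mul_assoc, hM h, ← Matrix.mul_assoc, hM g, e, Matrix.mul_assoc]
  refine ⟨b, ⟨⟨M, hM1⟩, hMm⟩, T, T', ?_, h1, h2, h3, ?_⟩
  · rcases Nat.eq_zero_or_pos b with hb | hb
    · exfalso
      subst hb
      have := congrFun (congrFun h1 ⟨0, hd⟩) ⟨0, hd⟩
      rw [Matrix.mul_apply, Matrix.one_apply_eq, Fintype.sum_empty] at this
      exact zero_ne_one this
    · exact hb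
  · intro g
    show W g * T = T * (ρ g ⊗ₖ M g)
    have e1 : W g = W g * Φ (ρ g⁻¹) * Φ (ρ g) := by
      rw [mul_assoc, ← map_mul, hρρ, map_one, mul_one]
    have e2 : ρ g ⊗ₖ M g = ((1 : Matrix (Fin 2) (Fin 2) F) ⊗ₖ M g) *
        (ρ g ⊗ₖ (1 : Matrix (Fin b) (Fin b) F)) := by
      rw [← Matrix.mul_kronecker_mul, Matrix.one_mul, Matrix.mul_one]
    rw [e1, Matrix.mul_assoc, h3, ← Matrix.mul_assoc, hM g, Matrix.mul_assoc, ← e2]

end Pool.Agent.RG.MUL
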